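import Mathlib
import Pool.Agent.H32.ReA

set_option autoImplicit false

namespace Pool.Agent.Results.MP_f617a8_an.Cnu

open MeasureTheory Set Filter Topology Complex Pool.Agent.H32.Re
open scoped Real InnerProductSpace ComplexConjugate

/-- `L²(0, π)`. -/
noncomputable abbrev H := Lp ℂ 2 (volume.restrict (Ioo (0 : ℝ) π))

theorem mem2 (f : ℝ → ℝ) (hf : Continuous f) :
    MemLp (fun t => (f t : ℂ)) 2 (volume.restrict (Ioo (0 : ℝ) π)) := by
  obtain ⟨C, hC⟩ := (isCompact_Icc (a := 0) (b := π)).exists_bound_of_continuousOn hf.continuousOn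
  refine MemLp.of_bound (by fun_prop) C ?_
  filter_upwards [ae_restrict_mem measurableSet_Ioo] with t ht
  simpa using hC t (Ioo_subset_Icc_self ht)

/-- The class in `L²(0, π)` of a continuous real function. -/
noncomputable def L (f : ℝ → ℝ) (hf : Continuous f) : H := (mem2 f hf).toLp _

noncomputable def sn (n : ℕ) : H := L (fun t => √(2 / π) * Real.sin (n * t)) (by fun_prop)

noncomputable def cn (n : ℕ) : H := L (fun t => √(2 / π) * Real.cos (n * t)) (by fun_prop)

noncomputable def one : H := L (fun _ => 1) continuous_const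

/-- The re-expansion operator `P f = ∑_{n ≥ 1} ⟨f, s_n⟩ c_n`. -/
noncomputable def P (f : H) : H := ∑' n : ℕ, ⟪sn (n + 1), f⟫_ℂ • cn (n + 1)

theorem abst {E : Type*} [NormedAddCommGroup E] [InnerProductSpace ℂ E] [CompleteSpace E]
    {s c : ℕ → E} (hs : Orthonormal ℂ s) (hc : Orthonormal ℂ c) {u : E} (hu : ∀ n, ⟪u, c n⟫_ℂ = 0)
    (hu0 : ⟪u, u⟫_ℂ ≠ 0) (hcomp : ∀ g, ⟪u, g⟫_ℂ = 0 → (∀ n, ⟪c n, g⟫_ℂ = 0) → g = 0)
    {φ f : E} {m : ℂ} (hm : ‖m‖ < 1) (hφ : ∀ n, ⟪c n, φ⟫_ℂ = m * ⟪s n, φ⟫_ℂ)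
    (hf : ∀ n, ⟪(fun g => ∑' n, ⟪s n, g⟫_ℂ • c n)^[n] u, f⟫_ℂ = 0) : ⟪φ, f⟫_ℂ = 0 := by
  let A := ContinuousLinearMap.adjoint hs.orthogonalFamily.linearIsometry.toContinuousLinearMap
  let Q := hc.orthogonalFamily.linearIsometry.toContinuousLinearMap ∘L A
  have hA : ∀ g n, A g n = ⟪s n, g⟫_ℂ := fun g n => by
    have := ContinuousLinearMap.adjoint_inner_right
      hs.orthogonalFamily.linearIsometry.toContinuousLinearMap (lp.single 2 n 1) g
    simpa [lp.inner_single_left] using this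
  have hQ : ∀ g, HasSum (fun n => ⟪s n, g⟫_ℂ • c n) (Q g) := fun g => by
    have := hc.orthogonalFamily.hasSum_linearIsometry (A g)
    simp only [hA, LinearIsometry.toSpanSingleton_apply] at this
    exact this
  have hQ1 : ∀ g, ‖Q g‖ ≤ ‖g‖ := fun g => by
    have h1 : ‖A‖ ≤ 1 := by
      rw [LinearIsometryEquiv.norm_map]
      exact LinearIsometry.norm_toContinuousLinearMap_le _
    have h2 : ‖Q g‖ = ‖A g‖ := hc.orthogonalFamily.linearIsometry.norm_map (A g)
    exact h2.trans_le ((A.le_opNorm g).trans (mul_le_of_le_one_left (norm_nonneg _) h1))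
  rw [show (fun g => ∑' n, ⟪s n, g⟫_ℂ • c n) = Q from funext fun g => (hQ g).tsum_eq] at hf
  have e : φ = (⟪u, φ⟫_ℂ / ⟪u, u⟫_ℂ) • u + m • Q φ := by
    rw [← sub_eq_zero]
    refine hcomp _ ?_ fun n => ?_
    · have h1 := (hQ φ).mapL (innerSL ℂ u)
      simp only [innerSL_apply_apply, inner_smul_right, hu, mul_zero] at h1
      rw [inner_sub_right, inner_add_right, inner_smul_right, inner_smul_right, ← hasSum_zero.unique h1,
        div_mul_cancel₀ _ hu0]
      simp
    · have h1 := (hQ φ).mapL (innerSL ℂ (c n))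
      simp only [innerSL_apply_apply, inner_smul_right, orthonormal_iff_ite.1 hc, mul_ite, mul_one,
        mul_zero, eq_comm (a := n)] at h1
      rw [inner_sub_right, inner_add_right, inner_smul_right, inner_smul_right,
        h1.unique (hasSum_single n fun b hb => if_neg hb), ← inner_conj_symm (c n) u, hu, hφ]
      simp
  have h2 : ∀ N, ‖⟪f, φ⟫_ℂ‖ = ‖m‖ ^ N * ‖⟪f, (Q ^ N) φ⟫_ℂ‖ ∧ ‖(Q ^ N) φ‖ ≤ ‖φ‖ := by
    intro N
    induction N with
    | zero => simp
    | succ N ih =>
      refine ⟨?_, by rw [pow_succ']; exact (hQ1 _).trans ih.2⟩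
      have h3 := hf N
      rw [← FunLike.coe_pow_eq_iterate, ← inner_conj_symm, map_eq_zero] at h3
      rw [ih.1]
      nth_rewrite 1 [e]
      rw [map_add, map_smul, map_smul, inner_add_right, inner_smul_right, inner_smul_right, h3, mul_zero,
        zero_add, norm_mul, pow_succ, pow_succ, mul_assoc]
      rfl
  have h4 := (tendsto_pow_atTop_nhds_zero_of_lt_one (norm_nonneg m) hm).mul_const (‖f‖ * ‖φ‖)
  rw [zero_mul] at h4
  rw [← inner_conj_symm, map_eq_zero, ← norm_le_zero_iff]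
  refine ge_of_tendsto' h4 fun N => (h2 N).1.trans_le ?_
  gcongr
  exact (norm_inner_le_norm _ _).trans (by gcongr; exact (h2 N).2)

theorem inner_L (f : ℝ → ℝ) (hf : Continuous f) (g : H) :
    ⟪L f hf, g⟫_ℂ = ∫ t in Ioo 0 π, g t * f t := by
  rw [L2.inner_def]
  refine integral_congr_ae ?_
  filter_upwards [(mem2 f hf).coeFn_toLp] with t ht
  rw [L, ht]
  simp

theorem inner_LL (f : ℝ → ℝ) (hf : Continuous f) (g : ℝ → ℝ) (hg : Continuous g) :
    ⟪L f hf, L g hg⟫_ℂ = ((∫ t in (0 : ℝ)..π, g t * f t : ℝ) : ℂ) := by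
  rw [inner_L, intervalIntegral.integral_of_le Real.pi_pos.le, integral_Ioc_eq_integral_Ioo,
    ← integral_complex_ofReal]
  refine integral_congr_ae ?_
  filter_upwards [(mem2 g hg).coeFn_toLp] with t ht
  rw [L, ht]
  simp

theorem icos (k : ℤ) : ∫ t in (0 : ℝ)..π, Real.cos (k * t) = if k = 0 then π else 0 := by
  split_ifs with h
  · simp [h]
  · rw [intervalIntegral.integral_comp_mul_left _ (Int.cast_ne_zero.2 h), integral_cos]
    simp

theorem prod (m n : ℕ) (e : ℝ) : ∫ t in (0 : ℝ)..π, π⁻¹ * (Real.cos ((((m + 1 : ℕ) : ℤ) - (n + 1 : ℕ) : ℤ) * t) +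
    e * Real.cos ((((m + 1 : ℕ) : ℤ) + (n + 1 : ℕ) : ℤ) * t)) = if n = m then 1 else 0 := by
  rw [intervalIntegral.integral_const_mul, intervalIntegral.integral_add
    (Continuous.intervalIntegrable (by fun_prop) _ _) (Continuous.intervalIntegrable (by fun_prop) _ _),
    intervalIntegral.integral_const_mul, icos, icos, if_neg (show ((m + 1 : ℕ) : ℤ) + (n + 1 : ℕ) ≠ 0 by omega)]
  by_cases h : n = m
  · simp [h, Real.pi_ne_zero]
  · rw [if_neg (by omega), if_neg h]; simp

theorem sq2 : √(2 / π) * √(2 / π) = 2 * π⁻¹ := Real.mul_self_sqrt (by positivity)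

theorem on_s : Orthonormal ℂ fun n => sn (n + 1) := by
  refine orthonormal_iff_ite.2 fun n m => ?_
  rw [sn, sn, inner_LL, intervalIntegral.integral_congr (g := _) fun t _ => ?_, prod m n (-1)]
  · split_ifs <;> simp
  · simp only [Int.cast_add, Int.cast_sub, Int.cast_natCast, add_mul, sub_mul, Real.cos_add, Real.cos_sub]
    linear_combination (Real.sin (((m + 1 : ℕ) : ℝ) * t) * Real.sin (((n + 1 : ℕ) : ℝ) * t)) * sq2

theorem on_c : Orthonormal ℂ fun n => cn (n + 1) := by
  refine orthonormal_iff_ite.2 fun n m => ?_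
  rw [cn, cn, inner_LL, intervalIntegral.integral_congr (g := _) fun t _ => ?_, prod m n 1]
  · split_ifs <;> simp
  · simp only [Int.cast_add, Int.cast_sub, Int.cast_natCast, add_mul, sub_mul, Real.cos_add, Real.cos_sub]
    linear_combination (Real.cos (((m + 1 : ℕ) : ℝ) * t) * Real.cos (((n + 1 : ℕ) : ℝ) * t)) * sq2

theorem xx_meas : Measurable xx := by unfold xx; fun_prop

theorem result (f : H) (hf : ∀ n : ℕ, ⟪P^[n] one, f⟫_ℂ = 0) : f = 0 := by
  have hint : ∀ g : H, Integrable g (volume.restrict (Ioo (0 : ℝ) π)) := fun g =>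
    (Lp.memLp g).integrable one_le_two
  have hz : ∀ g : H, (∀ᵐ t ∂volume.restrict (Ioo (0 : ℝ) π), g t = 0) → g = 0 := fun g h =>
    Lp.eq_zero_iff_ae_eq_zero.2 h
  have hx := xx_meas
  refine hz f (uniq measurableSet_Ioo (Lp.stronglyMeasurable f).measurable (hint f) hx xx_inj fun s' => ?_)
  obtain ⟨s, rfl⟩ : ∃ s, s' = -s := ⟨-s', (neg_neg _).symm⟩
  have hm : MemLp (fun t => cexp (s * xx t * I)) 2 (volume.restrict (Ioo (0 : ℝ) π)) :=
    MemLp.of_bound (Measurable.aestronglyMeasurable (by fun_prop)) 1 (ae_of_all _ fun t => (nexp _ _).le)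
  set A := Real.exp (-(1 * s * π / 2))
  set B := Real.exp (-(-1 * s * π / 2))
  have hA : 0 < A := Real.exp_pos _
  have hB : 0 < B := Real.exp_pos _
  have key := abst on_s on_c (u := one) (φ := hm.toLp _) (f := f) (m := ((B - A) / (A + B) : ℝ) * I)
    (fun n => ?_) ?_ (fun g h1 h2 => hz g (cos_complete (Lp.stronglyMeasurable g).measurable (hint g)
      fun n => ?_)) ?_ (fun n => ?_) hf
  · rw [← key, L2.inner_def]
    refine integral_congr_ae ?_
    filter_upwards [hm.coeFn_toLp] with t ht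
    rw [ht]
    simp [← exp_conj]
  · rw [one, cn, inner_LL]
    have := icos (n + 1 : ℕ)
    rw [if_neg (by omega), Int.cast_natCast] at this
    simp only [mul_one, intervalIntegral.integral_const_mul, this, mul_zero, ofReal_zero]
  · rw [one, inner_LL]
    simp
  · cases n with
    | zero => simpa [one, inner_L] using h1
    | succ n =>
      have := h2 n
      simp only [cn, inner_L, ofReal_mul, mul_left_comm _ ((√(2 / π) : ℝ) : ℂ), integral_const_mul,
        mul_eq_zero, ofReal_eq_zero] at this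
      exact this.resolve_left (by positivity)
  · rw [norm_mul, norm_I, mul_one, norm_real, Real.norm_eq_abs, abs_div, abs_of_pos (add_pos hA hB),
      div_lt_one (add_pos hA hB), abs_lt]
    constructor <;> linarith
  · have h1 := bdry s n
    have i : ∀ w : ℝ → ℝ, Continuous w → Integrable (fun t => (hm.toLp _) t * (w t : ℂ))
        (volume.restrict (Ioo (0 : ℝ) π)) := fun w hw => (Lp.memLp _).integrable_mul (mem2 w hw)
    have hAB : ((A + B : ℝ) : ℂ) ≠ 0 := ofReal_ne_zero.2 (add_pos hA hB).ne'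
    rw [cn, sn, inner_L, inner_L, ofReal_div]
    refine mul_left_cancel₀ hAB ?_
    rw [← mul_assoc, ← mul_assoc, mul_div_cancel₀ _ hAB, ← sub_eq_zero, ← integral_const_mul,
      ← integral_const_mul, ← integral_sub ((i _ (by fun_prop)).const_mul _) ((i _ (by fun_prop)).const_mul _),
      ← mul_zero ((√(2 / π) : ℝ) : ℂ), ← h1, ← integral_const_mul]
    refine integral_congr_ae ?_
    filter_upwards [hm.coeFn_toLp] with t ht
    rw [ht, ← exp_nat_mul, ← exp_nat_mul, ← mul_assoc ((n + 1 : ℕ) : ℂ), ← mul_assoc ((n + 1 : ℕ) : ℂ),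
      exp_mul_I ((_ : ℂ) * ((1 * t : ℝ) : ℂ)), exp_mul_I ((_ : ℂ) * ((-1 * t : ℝ) : ℂ)), ← ofReal_neg,
      ← ofReal_neg, ← ofReal_exp, ← ofReal_exp]
    change _ = _ * ((_ * (A : ℂ) + _ * (B : ℂ)) * _)
    simp only [one_mul, neg_mul, ofReal_neg, mul_neg, Complex.cos_neg, Complex.sin_neg]
    push_cast
    ring

end Pool.Agent.Results.MP_f617a8_an.Cnu
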